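import Pool.Agent.Helper61.LN.All

/-!
# No set of local moves with coefficients in a ring defines u, c or g

Let `A` be a ring and let `M`, `N` be sets of pairs of `A`-linear combinations of (unoriented,
oriented) tangles with at least one strand. Then there is no injective map `f` from the set of the
classes of `A`-linear combinations of knots to the natural numbers (for the unknotting number and the
genus: to the natural numbers with infinity) such that the invariant is the composition of `f` and
the natural map.

Proof. A small copy of a knot `T` (the trefoil knot or the torus knot with 5 crossings) slides along
a knot; so the connected sum with `T` is a well defined additive map `τ` of the group `P` of the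
classes: in a move, `T` is put on an end of the tangle, where all the diagrams of the linear
combination agree. If `f` exists, then the elements of `P` are the classes of knots, one for each
value of the invariant, and few others (the values which are not attained). For the unknotting number
and the genus these are the sums `x n = τ^n x 0` of `n` trefoil knots and at most one more element,
which must be `0`, as `τ 0 = 0`. Then `- x 0 = x k` gives `x 0 = x (2 k)`, so `2 x 0 = 0`, and
`x 0 + x 1 = x m` gives `x j + x (j + 1) = x (j + m)`: all the `x n` are in a finite group. For the
crossing number one uses that it is additive on sums of trefoil knots, torus knots with 5 crossings
and a figure eight knot (Kauffman, Murasugi, Thistlethwaite); there are two more elements. The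
unknotting number of a sum of `n` trefoil knots is `n` by the number of its 3-colourings, and the
genus of these sums is unbounded for the same reason: the boundary of a disk with `2 h` bands has at
most `3 ^ (4 h + 1)` colourings.
-/

open Pool.Agent.Helper31.Sk Pool.Agent.Helper61.LN

namespace Pool.Agent.Results.MP_c65973_gt.LinearMoves

universe u

theorem result (A : Type u) [Ring A] (M : MovesU A) (N : MovesD A) (hM : TanglesU M)
    (hN : TanglesD N) : ¬ SkeinInv M N cr ∧ ¬ SkeinInv M N un ∧ ¬ SkeinInv M N ge :=
  ⟨final_cr A M N hM hN, final_un A M N hM hN, final_ge A M N hM hN⟩

end Pool.Agent.Results.MP_c65973_gt.LinearMoves
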