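import Pool.Agent.Helper61.LF.AllN
import Pool.Agent.Helper61.LF.EXN

/-!
# No finite set of linear moves over a field defines u, c or g, also with moves of 0-tangles

Let `A` be a commutative noetherian ring which is a field, or has positive characteristic, or contains
the rational numbers, or (this covers the other cases, `Pool.Agent.Helper61.LF.EXN`) has no ring
homomorphism to a finitely generated ring of algebraic numbers. Let `M`, `N` be sets of local moves
which are pairs of
`A`-linear combinations of (unoriented, oriented) tangles with at least one strand, and let `Z` be a
finite set of moves of 0-tangles: pairs of `A`-linear combinations of knots. (A move of 0-tangles can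
be applied to a combination of knots and gives a combination of knots only if both sides are
combinations of knots, or multiples of the empty diagram; the latter are moves with one strand.) Then
there is no injective map `f` from the set of the classes of `A`-linear combinations of knots to the
natural numbers (for the unknotting number and the genus: to the natural numbers with infinity) such
that the invariant is the composition of `f` and the natural map. So for fields this is the negated
form of the question, for all three invariants, for all moves.

Proof. Let `P` be the module of the classes for `M` and `N` alone, and `R` its finitely generated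
submodule of the relations of `Z`. The connected sum with the trefoil knot is a linear map `τ` of `P`
(as in `LinearMoves`). If `f` exists then modulo `R` every element of `P` is equal to one of the
`τ^n (b j)`, where the `b j` are the classes of the unknot (for the crossing number also of the figure
eight knot and of the torus knot with 5 crossings), or to one of at most two more elements, and
`P ⧸ R` is infinite. (1) Let `E m` be the submodule generated by `R`, the `b j`, the other elements
and their images under `τ^i`, `i ≤ m`. If `P` is not finitely generated, then for large `m` the map `τ`
maps `E m` minus `E (m-1)` to `E (m+1)` minus `E m`, so that modulo `R` there are at most three classes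
in `E m` minus `E (m-1)`; but there are more, `x m + x t`, `t < m`. So `P` is finitely generated.
(2) Let `B` be the subring of `A` generated by the coefficients of `τ`, of the `b j` and of the other
elements with respect to generators of `P`. Then `P ⧸ R` is a finitely generated `B`-module, so `A`
modulo the annihilator of `P ⧸ R` is a finitely generated ring. By the Nullstellensatz and the
hypothesis on `A` it has positive characteristic, and one can assume that a prime number `p` is `0` in
it (enlarge `R`). (3) As `P ⧸ R` is infinite there is a maximal ideal `𝔪` with finite residue field
such that the `R + 𝔪^m P` are strictly decreasing, so there are at least `2^m` classes modulo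
`R + 𝔪^m P`. But `τ^a - τ^b` maps `P` to `𝔪 P` for some `a > b`, so, for a power `q` of `p` with
`m ≤ q < p (m + 1)`, `(τ^a - τ^b)^q = τ^(a q) - τ^(b q)` modulo `p` maps `P` to `𝔪^m P`: there are at
most `C (m + 1)` classes of elements `τ^n (b j)`, a contradiction.

For the ring of integers (and infinite `M`) the algebraic part of this fails: `0, -1, 1, -2, 2, ..` is
a linear recurrence sequence.
-/

open Pool.Agent.Helper31.Sk Pool.Agent.Helper61.LN Pool.Agent.Helper61.LF

namespace Pool.Agent.Results.MP_c65973_gt.NoetherianMoves

universe u

theorem result (A : Type u) [CommRing A] [IsNoetherianRing A]
    (hA : IsField A ∨ (∃ n : ℕ, 0 < n ∧ (n : A) = 0) ∨ (∀ n : ℕ, 0 < n → IsUnit (n : A)) ∨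
      NoAlg A)
    (M : MovesU A) (N : MovesD A) (Z : Set (KLin A × KLin A)) (hM : TanglesU M)
    (hN : TanglesD N) (hZ : Z.Finite) :
    ¬ SkeinInvZ M N Z cr ∧ ¬ SkeinInvZ M N Z un ∧ ¬ SkeinInvZ M N Z ge :=
  ⟨final_cr A (noAlg_of hA) M N Z hM hN hZ, final_un A (noAlg_of hA) M N Z hM hN hZ,
    final_ge A (noAlg_of hA) M N Z hM hN hZ⟩

end Pool.Agent.Results.MP_c65973_gt.NoetherianMoves
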