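import Pool.Agent.Helper35.Skl.Goal

/-!
# Linear skein relations do not generate u, c or g

Part 1. Let `p` be a function of oriented knot diagrams with values in a module over a commutative
ring `A`, such that for all families of knots `K k` (`k` an integer), in which `K k` has `k` full
twists of two strands with opposite directions, the sequence `p (K k)` satisfies a linear recurrence
(the coefficients of which have no common annihilator). Then `p` generates neither the crossing
number, nor the unknotting number, nor the genus.

Proof. Two such sequences which agree for all `k ≠ 0` agree for `k = 0` (an argument of McCoy). But
there is a family of twist knots with unknotting number `1` for `k ≠ 0` and `0` for `k = 0`, the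
same family (as the boundaries of a disk with two bands) has genus `1` for `k ≠ 0` and `0` for
`k = 0`. For the crossing number: let `K k` be the connected sum of the double twist knot with `2 k`
and `2` crossings and of the torus knot with `5` crossings, and let `K' k` be the connected sum of
the double twist knot with `2 k` and `4` crossings and of the torus knot with `3` crossings. Then
`K k` and `K' k` have the same crossing number for `k ≠ 0` (the theorem of Kauffman, Murasugi and
Thistlethwaite), but not for `k = 0`.

Parts 2 and 3 (unoriented and oriented tangles). In a skein module in which the powers of the (half
or full) twist satisfy a linear relation, the coefficients of which generate the unit ideal, the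
function `p` = class of the diagram has these recurrences. There is such a relation if the module of
tangles is finitely generated (Cayley and Hamilton).
-/

open Pool.Agent.Helper31.Sk Pool.Agent.Helper35.Skl

namespace Pool.Agent.Results.MP_c65973_gt.SkeinRelations

universe u v

theorem result :
    (∀ (A : Type u) (N : Type v) [CommRing A] [AddCommGroup N] [Module A N] (x : Bool)
      (p : OWord → N), TwistRecurrentO A x p → GenNone p) ∧
    (∀ (A : Type u) [CommRing A] (M : Moves A) (n : ℕ), 2 ≤ n →
      HalfTwistRel M n ∨ FinGen M n → GenNone (fun W => sk M 0 0 (und W))) ∧
    (∀ (A : Type u) [CommRing A] (M : MovesO A) (x : Bool),
      FullTwistRel M x ∨ FinGenO M x → GenNone (skO M [] [])) :=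
  ⟨fun _ _ _ _ _ x p h => genNone_of_twist x p h, fun _ _ M n hn h => genNone_half M n hn h,
    fun _ _ M x h => genNone_full M x h⟩

end Pool.Agent.Results.MP_c65973_gt.SkeinRelations
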