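import Pool.Agent.Helper31.Sk.OrMain
import Pool.Agent.Helper17.SkSp

/-!
# Local moves with a trivial side do not generate u, c or g

Let `M` be a set of pairs of unoriented tangles and `N` a set of pairs of oriented tangles, such
that all but finitely many of them have a trivial side, and such that the exceptions are pairs of
tangles with at most two ends. Then the moves of `M` and `N` together generate neither the crossing
number, nor the unknotting number, nor the genus.

Proof. Assume that they generate an invariant which detects the unknot. Let `(S, T)` be a move such
that `S` is trivial; `S` may be assumed to consist of cups. If a closing of `S` (compatible with the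
orientation, if the move is oriented) is the unknot and the closing of `T` is a knot, then it is the
unknot too. Twisting the ends of a cup of `S` gives infinitely many such closings. The Kauffman
brackets (at `A = 19`) of all of them are units; this implies first that `T` has the same matching
as `S` (if the move ever turns a knot into a knot), and then that the bracket tensors of the two
sides are proportional by a unit. A pair of tangles with at most two ends changes the bracket by a
fixed rational number. So the ratio of the brackets of equivalent knots has only finitely many prime
divisors. But the invariants agree on a knot and its mirror image, and the ratios of the brackets of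
torus knots of type `(2, 2 k + 1)` and of their mirror images have infinitely many prime divisors.
-/

open Pool.Agent.Helper31.Sk

namespace Pool.Agent.Results.MP_c65973_gt.TrivialSideMoves

theorem result (M : Set (ℕ × Word × Word)) (N : Set (List Bool × Word × Word))
    (hM1 : ∀ m ∈ M, Legal 0 m.2.1 (2 * m.1) ∧ Legal 0 m.2.2 (2 * m.1))
    (hN1 : ∀ m ∈ N, Legal 0 m.2.1 m.1.length ∧ Legal 0 m.2.2 m.1.length)
    (hM2 : ∀ m ∈ M, TrivMove m ∨ m.1 ≤ 1) (hN2 : ∀ m ∈ N, TrivMoveO m ∨ m.1.length ≤ 2)
    (hM3 : {m ∈ M | ¬ TrivMove m}.Finite) (hN3 : {m ∈ N | ¬ TrivMoveO m}.Finite) :
    ¬ GeneratesO M N cr ∧ ¬ GeneratesO M N un ∧ ¬ GeneratesO M N ge :=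
  have h := Pool.Agent.Helper17.SkSp.goalSp
  ⟨main3 h cr (fun _ hw h => cr_detects hw h) (fun w _ => cr_mir w) M N hM1 hN1 hM2 hN2 hM3 hN3,
    main3 h un (fun _ _ h => un_detects h) (fun w _ => un_mir w) M N hM1 hN1 hM2 hN2 hM3 hN3,
    main3 h ge (fun _ _ h => ge_detects h) (fun w _ => ge_mir w) M N hM1 hN1 hM2 hN2 hM3 hN3⟩

end Pool.Agent.Results.MP_c65973_gt.TrivialSideMoves
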